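import Pool.Agent.H32.RK.TargetsA
import Pool.Agent.H32.RK.TargetsB

/-!
# Row PX2 of hpk_modules: the frequencies are local
-/

set_option autoImplicit false

open Finset NumberField Pool.Agent.H32.RQ Pool.Agent.H32.RK

namespace Pool.Agent.H72.RK

theorem pf_PX2 (K : Type) [Field K] [NumberField K] (hZST : T_ZST K) (hCLS : T_CLS K)
    (hCMD : T_CMD K) (hDUA : T_DUA K) : T_PX2 K := by
  intro ι _ _ ω s hs
  obtain ⟨C1, hC1, hZ⟩ := hZST ι ω s hs
  obtain ⟨C2, hC2, hM, -⟩ := hCMD ι ω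
  refine ⟨2 * C1 * C2, by nlinarith, ?_⟩
  intro b A J Q W _ c x y D hb hA hcA hQ hW hWQ hx hy hD hWg z hz m
  have hb4 : (0 : ℝ) ≤ (b : ℝ) ^ 4 := by positivity
  have hcA1 : C1 * (b : ℝ) ^ 4 ≤ c * A := by
    refine le_trans ?_ hcA
    apply mul_le_mul_of_nonneg_right _ hb4
    nlinarith
  obtain ⟨θ, φ, α, β, hθ, -, hin, -, hdist⟩ := hZ b A J Q c x y D hb hA hcA1 hQ hx hy hD z hz
  obtain ⟨hα, -⟩ := hCLS s x y α β hx.prm hy.prm hin (W : 𝓞 K) hWg
  obtain ⟨a, ha⟩ := hα (ω m)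
  have hcast : (((W : 𝓞 K) : K)) = (W : K) := by
    simp
  rw [hcast] at ha
  have hAr : (0 : ℝ) < A := by
    have : 0 < A := hA
    exact_mod_cast this
  -- the trace of `α ω_m`
  have htr : (W : ℚ) * Algebra.trace ℚ K (α * (ω m : K)) = a := by
    rw [← ha, ← smul_eq_mul, ← LinearMap.map_smul]
    congr 1
    rw [Algebra.smul_def]
    simp only [map_natCast]
    ring
  obtain ⟨q, hq⟩ : ∃ q : ℕ, Q / W = q := ⟨_, rfl⟩
  have hQW : (q : ℚ) * W = Q := by
    rw [← hq, ← Nat.cast_mul, Nat.div_mul_cancel hWQ]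
  rw [hq]
  have hval : ((((z.1 m).val : ℤ) - a * (q : ℤ) : ℤ) : ℚ) =
      (Q : ℚ) * Algebra.trace ℚ K ((θ - α) * (ω m : K)) := by
    rw [sub_mul, map_sub, mul_sub, hθ m]
    push_cast
    have h1 : (Q : ℚ) * Algebra.trace ℚ K (α * (ω m : K)) = (q : ℚ) * a := by
      rw [← htr, ← mul_assoc, hQW]
    rw [h1]
    ring
  refine ⟨a, ((z.1 m).val : ℤ) - a * (q : ℤ), ?_, ?_⟩
  · rw [sub_add_cancel]
    rw [Int.cast_natCast, ZMod.natCast_zmod_val]
  · have hX : ∀ w : InfinitePlace K, w (θ - α) ≤ (C1 / A) * ∑ v, 1 / D v := by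
      intro w
      have h1 := hdist w
      have hDw := (hD w).1
      have h2 : w (θ - α) ≤ (C1 / A) * (1 / D w) := by
        rw [mul_one_div, le_div_iff₀ hDw]
        exact h1
      refine le_trans h2 ?_
      apply mul_le_mul_of_nonneg_left _ (by positivity)
      exact Finset.single_le_sum (f := fun v : InfinitePlace K => 1 / D v)
        (fun v _ => one_div_nonneg.2 (hD v).1.le) (Finset.mem_univ w)
    have h3 := hM (θ - α) _ hX m
    have h4 : (((((z.1 m).val : ℤ) - a * (q : ℤ) : ℤ) : ℤ) : ℝ) =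
        (Q : ℝ) * ((Algebra.trace ℚ K ((θ - α) * (ω m : K)) : ℚ) : ℝ) := by
      have h5 := congrArg (fun t : ℚ => (t : ℝ)) hval
      push_cast at h5 ⊢
      exact h5
    rw [h4, abs_mul]
    have hQ0 : |(Q : ℝ)| = Q := abs_of_nonneg (Nat.cast_nonneg Q)
    rw [hQ0]
    have hQr : (Q : ℝ) = 2 * A * J := by
      rw [hQ]
      push_cast
      ring
    calc (Q : ℝ) * |((Algebra.trace ℚ K ((θ - α) * (ω m : K)) : ℚ) : ℝ)|
        ≤ Q * (C2 * ((C1 / A) * ∑ v, 1 / D v)) :=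
          mul_le_mul_of_nonneg_left h3 (Nat.cast_nonneg Q)
      _ = 2 * C1 * C2 * J * ∑ v, 1 / D v := by
          rw [hQr]
          field_simp

end Pool.Agent.H72.RK
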